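import Pool.Agent.N204.HR.Stm

/-!
# Project HR: the conjugating matrix
-/

set_option linter.all false
set_option autoImplicit false

namespace Pool.Agent.N655.HR

open Matrix
open Pool.Agent.N996.BP (kp kp_mul kp_one kp_apply)
open Pool.Agent.N204.RD (FixA)
open Pool.Agent.N204.HR

section

variable {ι : Type} [Fintype ι] [DecidableEq ι] {κ : Type} [Fintype κ] [DecidableEq κ]

theorem star_kp (M : Matrix ι ι ℂ) (v : (κ → ι) → ℂ) :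
    star (kp κ M *ᵥ v) = kp κ (M.map star) *ᵥ star v := by
  ext i
  simp only [Pi.star_apply, Matrix.mulVec, dotProduct, kp_apply, star_sum, star_mul', star_prod,
    Matrix.map_apply]

theorem kp_kp (M N : Matrix ι ι ℂ) (v : (κ → ι) → ℂ) :
    kp κ M *ᵥ (kp κ N *ᵥ v) = kp κ (M * N) *ᵥ v := by
  rw [Matrix.mulVec_mulVec, kp_mul]

theorem kp_one' (v : (κ → ι) → ℂ) : kp κ (1 : Matrix ι ι ℂ) *ᵥ v = v := by
  rw [kp_one, Matrix.one_mulVec]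

theorem map_mul' (M N : Matrix ι ι ℂ) : (M * N).map star = M.map star * N.map star := by
  ext i j
  simp only [Matrix.map_apply, Matrix.mul_apply, star_sum, star_mul']

theorem ct_map (M : Matrix ι ι ℂ) : (Mᴴ).map star = Mᵀ := by
  ext i j
  simp [Matrix.conjTranspose_apply]

theorem tr_map (M : Matrix ι ι ℂ) : (Mᵀ).map star = Mᴴ := by
  ext i j
  simp [Matrix.conjTranspose_apply]

theorem ct_tr (M : Matrix ι ι ℂ) : (Mᴴ)ᵀ = M.map star := by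
  ext i j
  simp [Matrix.conjTranspose_apply]

variable {Q s : Matrix ι ι ℂ}

theorem QQ (h : Qᴴ * Q = 1) : Q * Qᴴ = 1 := mul_eq_one_comm.1 h

/-- `Qᵀ star(Q) = 1` -/
theorem tQ (h : Qᴴ * Q = 1) : Qᵀ * Q.map star = 1 := by
  have h1 := congrArg Matrix.transpose h
  rw [Matrix.transpose_mul, Matrix.transpose_one, ct_tr] at h1
  exact h1

/-- `star(Q) Qᵀ = 1` -/
theorem Qt (h : Qᴴ * Q = 1) : Q.map star * Qᵀ = 1 := mul_eq_one_comm.1 (tQ h)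

theorem inv1 (h : Qᴴ * Q = 1) {p : Matrix ι ι ℂ} (hp : p * Qᴴ * pᵀ = Qᴴ) :
    IsUnit p ∧ pᵀ * Q * p = Q := by
  have h1 : p * (Qᴴ * pᵀ * Q) = 1 := by
    calc p * (Qᴴ * pᵀ * Q) = (p * Qᴴ * pᵀ) * Q := by simp only [Matrix.mul_assoc]
      _ = 1 := by rw [hp, h]
  have h2 : Qᴴ * pᵀ * Q * p = 1 := mul_eq_one_comm.1 h1
  refine ⟨⟨⟨p, Qᴴ * pᵀ * Q, h1, h2⟩, rfl⟩, ?_⟩
  calc pᵀ * Q * p = (Q * Qᴴ) * (pᵀ * Q * p) := by rw [QQ h, Matrix.one_mul]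
    _ = Q * (Qᴴ * pᵀ * Q * p) := by simp only [Matrix.mul_assoc]
    _ = Q := by rw [h2, Matrix.mul_one]

theorem inv2 (h : Qᴴ * Q = 1) {p : Matrix ι ι ℂ} (hp : pᵀ * Q * p = Q) : p * Qᴴ * pᵀ = Qᴴ := by
  have h1 : (Qᴴ * pᵀ * Q) * p = 1 := by
    calc (Qᴴ * pᵀ * Q) * p = Qᴴ * (pᵀ * Q * p) := by simp only [Matrix.mul_assoc]
      _ = 1 := by rw [hp, h]
  have h2 : p * (Qᴴ * pᵀ * Q) = 1 := mul_eq_one_comm.1 h1
  calc p * Qᴴ * pᵀ = (p * Qᴴ * pᵀ) * (Q * Qᴴ) := by rw [QQ h, Matrix.mul_one]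
    _ = (p * (Qᴴ * pᵀ * Q)) * Qᴴ := by simp only [Matrix.mul_assoc]
    _ = Qᴴ := by rw [h2, Matrix.one_mul]

theorem cj {p : Matrix ι ι ℂ} (hp : pᵀ * Q * p = Q) :
    pᴴ * Q.map star * p.map star = Q.map star := by
  have h1 := congrArg (fun M : Matrix ι ι ℂ => M.map star) hp
  simp only [map_mul', tr_map] at h1
  exact h1

/-- a fixed array -/
theorem fx (h : Qᴴ * Q = 1) {a : (κ → ι) → ℂ} (ha : kp κ Qᴴ *ᵥ star a = a) :
    kp κ (Q.map star) *ᵥ star a = a := by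
  have h1 := congrArg star ha
  rw [star_kp, star_star, ct_map] at h1
  rw [← h1, kp_kp, Qt h, kp_one']

theorem good_zero {a : (κ → ι) → ℂ} (ha : Good Qᴴ s κ a) : kp κ Qᴴ *ᵥ star a = a := by
  have h1 := ha.1 0
  rwa [pow_zero, kp_one'] at h1

theorem good_s {a : (κ → ι) → ℂ} (ha : Good Qᴴ s κ a) : Good Qᴴ s κ (kp κ s *ᵥ a) := by
  obtain ⟨h1, m, hm, h2⟩ := ha
  refine ⟨fun k => ?_, m, hm, ?_⟩
  · rw [kp_kp, ← pow_succ]
    exact h1 (k + 1)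
  · rw [kp_kp, ← pow_succ, pow_succ', ← kp_kp, h2]

theorem ct_fix (h : Qᴴ * Q = 1) {p : Matrix ι ι ℂ} (hp : pᵀ * Q * p = Q) {a : (κ → ι) → ℂ}
    (ha : kp κ Qᴴ *ᵥ star a = a) (hb : kp κ Qᴴ *ᵥ star (kp κ p *ᵥ a) = kp κ p *ᵥ a) :
    kp κ pᴴ *ᵥ (kp κ p *ᵥ a) = a := by
  have h1 := fx h hb
  rw [← h1, star_kp, kp_kp, kp_kp, cj hp]
  exact fx h ha

/-- the array of a matrix -/
def ar (M : Matrix ι ι ℂ) : (Fin 2 → ι) → ℂ := fun w => M (w 0) (w 1)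

theorem ar_inj {M N : Matrix ι ι ℂ} (h : ar M = ar N) : M = N := by
  ext i j
  have := congrFun h ![i, j]
  exact this

theorem kp_ar (p M : Matrix ι ι ℂ) : kp (Fin 2) p *ᵥ ar M = ar (p * M * pᵀ) := by
  ext w
  unfold ar
  rw [Matrix.mulVec, dotProduct, Matrix.mul_apply]
  rw [← (finTwoArrowEquiv ι).symm.sum_comp, Fintype.sum_prod_type, Finset.sum_comm]
  refine Finset.sum_congr rfl fun y _ => ?_
  rw [Matrix.mul_apply, Finset.sum_mul]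
  refine Finset.sum_congr rfl fun x _ => ?_
  rw [kp_apply, Fin.prod_univ_two]
  simp [finTwoArrowEquiv]
  ring

theorem ar_star (M : Matrix ι ι ℂ) : star (ar M) = ar (M.map star) := rfl

theorem good_ar (h : Qᴴ * Q = 1) (hs : sᵀ * Q * s = Q) : Good Qᴴ s (Fin 2) (ar Qᴴ) := by
  have h1 : kp (Fin 2) s *ᵥ ar Qᴴ = ar Qᴴ := by rw [kp_ar, inv2 h hs]
  have h2 : ∀ k : ℕ, kp (Fin 2) (s ^ k) *ᵥ ar Qᴴ = ar Qᴴ := by
    intro k
    induction k with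
    | zero => rw [pow_zero, kp_one']
    | succ k ih => rw [pow_succ, ← kp_kp, h1, ih]
  refine ⟨fun k => ?_, 1, one_pos, h2 1⟩
  rw [h2, ar_star, kp_ar, ct_map, ct_tr, Matrix.mul_assoc, tQ h, Matrix.mul_one]

end

theorem ma (h : S_CO) : S_MA := by
  intro ι _ _ Q s P Pi lam hQ hs hP hF hlam
  let 𝒜 : ∀ κ : Type, Set ((κ → ι) → ℂ) := fun κ =>
    {a | ∀ (h1 : Fintype κ) (h2 : DecidableEq κ), @Good ι _ _ Qᴴ s κ h1 h2 a}
  have hA1 : ∀ (κ : Type) [Fintype κ] [DecidableEq κ] (a : (κ → ι) → ℂ), a ∈ 𝒜 κ →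
      Good Qᴴ s κ a := fun κ i1 i2 a ha => ha i1 i2
  have hA2 : ∀ (κ : Type) [Fintype κ] [DecidableEq κ] (a : (κ → ι) → ℂ), Good Qᴴ s κ a →
      a ∈ 𝒜 κ := by
    intro κ i1 i2 a ha h1 h2
    have e1 : i1 = h1 := Subsingleton.elim _ _
    have e2 : i2 = h2 := Subsingleton.elim _ _
    subst e1
    subst e2
    exact ha
  have hfix : ∀ p, FixA 𝒜 p → IsUnit p ∧ pᵀ * Q * p = Q := by
    intro p hp
    have h1 := hp (Fin 2) (ar Qᴴ) (hA2 _ _ (good_ar hQ hs))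
    rw [kp_ar] at h1
    exact inv1 hQ (ar_inj h1)
  obtain ⟨g, gi, hg, hgi, hgg, hu⟩ := h ι 𝒜 (fun p hp => ⟨(hfix p hp).1, by
      intro κ _ _ a ha
      have hG := good_zero (hA1 κ a ha)
      have hpa := hp κ a ha
      have h1 := ct_fix (p := p) hQ (hfix p hp).2 hG (by rw [hpa]; exact hG)
      rwa [hpa] at h1⟩) s P Pi lam
    (by
      intro κ _ _ a ha
      have hG := hA1 κ a ha
      exact ⟨hA2 κ _ (good_s hG), ct_fix hQ hs (good_zero hG) (good_zero (good_s hG))⟩)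
    hP hF hlam
  have hgQ := (hfix g hg).2
  have hgiQ := (hfix gi hgi).2
  refine ⟨g, gi, hgg, hgQ, ?_, ?_, ?_⟩
  · have e1 := inv2 hQ hgQ
    have e2 := inv2 hQ hgiQ
    have e3 := inv2 hQ hs
    have e4 : (g * s * gi) * Qᴴ * (g * s * gi)ᵀ = Qᴴ := by
      calc (g * s * gi) * Qᴴ * (g * s * gi)ᵀ = g * (s * (gi * Qᴴ * giᵀ) * sᵀ) * gᵀ := by
            rw [Matrix.transpose_mul, Matrix.transpose_mul]
            simp only [Matrix.mul_assoc]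
        _ = Qᴴ := by rw [e2, e3, e1]
    have e5 : (g * s * gi)ᵀ * (g * s * gi).map star = 1 := by
      have e6 := congrArg Matrix.transpose hu
      rw [Matrix.transpose_mul, Matrix.transpose_one, ct_tr] at e6
      exact e6
    calc (g * s * gi) * Qᴴ = (g * s * gi) * Qᴴ * ((g * s * gi)ᵀ * (g * s * gi).map star) := by
          rw [e5, Matrix.mul_one]
      _ = ((g * s * gi) * Qᴴ * (g * s * gi)ᵀ) * (g * s * gi).map star := by
          simp only [Matrix.mul_assoc]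
      _ = Qᴴ * (g * s * gi).map star := by rw [e4]
  · intro κ _ _ a ha
    exact hg κ a (hA2 κ a ha)
  · intro κ _ _ t ht hst
    have hG : Good Qᴴ s κ (kp κ Qᴴ *ᵥ t) := by
      have h1 : kp κ s *ᵥ (kp κ Qᴴ *ᵥ t) = kp κ Qᴴ *ᵥ t := by
        conv_lhs => rw [← hst]
        rw [kp_kp, kp_kp, inv2 hQ hs]
      have h2 : ∀ k : ℕ, kp κ (s ^ k) *ᵥ (kp κ Qᴴ *ᵥ t) = kp κ Qᴴ *ᵥ t := by
        intro k
        induction k with
        | zero => rw [pow_zero, kp_one']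
        | succ k ih => rw [pow_succ, ← kp_kp, h1, ih]
      refine ⟨fun k => ?_, 1, one_pos, h2 1⟩
      rw [h2, star_kp, ct_map, ← ht, ct_tr, kp_kp, kp_kp, Matrix.mul_assoc, tQ hQ, Matrix.mul_one]
    have h3 := hg κ _ (hA2 κ _ hG)
    have h4 : kp κ Q *ᵥ (kp κ Qᴴ *ᵥ t) = t := by rw [kp_kp, QQ hQ, kp_one']
    calc kp κ gᵀ *ᵥ t = kp κ gᵀ *ᵥ (kp κ Q *ᵥ (kp κ g *ᵥ (kp κ Qᴴ *ᵥ t))) := by rw [h3, h4]
      _ = kp κ (gᵀ * Q * g) *ᵥ (kp κ Qᴴ *ᵥ t) := by rw [kp_kp, kp_kp]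
      _ = t := by rw [hgQ, h4]

end Pool.Agent.N655.HR
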